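import Mathlib

open Set Metric

namespace H11.IFS

/-- `φ_a = φ_{a₁} ∘ ⋯ ∘ φ_{aₙ}` for a finite word `a`. -/
def comp {l : ℕ} (φ : Fin l → ℝ → ℝ) (a : List (Fin l)) : ℝ → ℝ := a.foldr (fun i g => φ i ∘ g) id

/-- `W_s(z)`: the points `x` with `|x - φ_a z| ≤ Diam(φ_a X)^s` for infinitely many words `a`. -/
def W {l : ℕ} (φ : Fin l → ℝ → ℝ) (X : Set ℝ) (z s : ℝ) : Set ℝ :=
  {x | {a : List (Fin l) | |x - comp φ a z| ≤ diam (comp φ a '' X) ^ s}.Infinite}

noncomputable def f (i : Fin 8) (x : ℝ) : ℝ := if i = 7 then 12 - 2 / 3 * x else 2 / 3 * (x + i)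

theorem f_dist (i : Fin 8) (x y : ℝ) : |f i x - f i y| = 2 / 3 * |x - y| := by
  rw [← abs_of_pos (by norm_num : (0 : ℝ) < 2 / 3), ← abs_mul]
  unfold f
  split_ifs
  · rw [← abs_neg]; congr 1; ring
  · congr 1; ring

theorem c_dist (a : List (Fin 8)) (x y : ℝ) :
    |comp f a x - comp f a y| = (2 / 3) ^ a.length * |x - y| := by
  induction a with
  | nil => simp [comp]
  | cons i a ih => exact (f_dist i _ _).trans (by rw [← comp, ih, List.length_cons]; ring)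

theorem f_mem (i : Fin 8) {x : ℝ} (h : x ∈ Icc (0 : ℝ) 12) : f i x ∈ Icc (0 : ℝ) 12 := by
  fin_cases i <;> simp [f] <;> constructor <;> linarith [h.1, h.2]

theorem c_mem (a : List (Fin 8)) {x : ℝ} (h : x ∈ Icc (0 : ℝ) 12) :
    comp f a x ∈ Icc (0 : ℝ) 12 := by
  induction a with
  | nil => exact h
  | cons i a ih => exact f_mem i ih

theorem c_diam (a : List (Fin 8)) : diam (comp f a '' Icc 0 12) = 12 * (2 / 3) ^ a.length := by
  refine le_antisymm (diam_le_of_forall_dist_le (by positivity) ?_) ?_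
  · rintro _ ⟨x, hx, rfl⟩ _ ⟨y, hy, rfl⟩
    rw [Real.dist_eq, c_dist, mul_comm]
    gcongr
    exact abs_le.2 ⟨by linarith [hx.1, hy.2], by linarith [hx.2, hy.1]⟩
  · refine le_trans ?_ (dist_le_diam_of_mem ((isBounded_Icc 0 12).subset
      (by rintro _ ⟨x, hx, rfl⟩; exact c_mem a hx)) ⟨12, by simp, rfl⟩ ⟨0, by simp, rfl⟩)
    rw [Real.dist_eq, c_dist]; simp [mul_comm]

theorem exact (m : ℕ) : ∀ N : ℤ, 4 * 3 ^ m - 4 * 2 ^ m ≤ N → N ≤ 6 * 3 ^ m →
    ∃ a : List (Fin 8), a.length = m + 1 ∧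
      ∀ y, comp f a y = 2 / 3 * (N / 3 ^ m + (2 / 3) ^ m * y) := by
  induction m with
  | zero =>
    intro N h1 h2
    obtain ⟨n, rfl⟩ := Int.eq_ofNat_of_zero_le (a := N) (by simpa using h1)
    refine ⟨[⟨n, by omega⟩], rfl, fun y => ?_⟩
    simp [comp, f, Fin.ext_iff, show n ≠ 7 by omega, add_comm]
  | succ m ih =>
    intro N h1 h2
    have h3 : ¬ (3 : ℤ) ∣ 2 ^ m := fun h => by
      simpa using Int.prime_three.dvd_of_dvd_pow h
    have h4 : (0 : ℤ) < 2 ^ m := by positivity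
    obtain ⟨d, hd, k, hk⟩ : ∃ d : ℕ, d ≤ 2 ∧ 3 ∣ N - d * (2 * 2 ^ m) := by
      by_cases c : 3 ∣ N
      · exact ⟨0, by simp, by simpa⟩
      by_cases c : 3 ∣ N - 2 * 2 ^ m
      · exact ⟨1, by simp, by simpa⟩
      refine ⟨2, by simp, ?_⟩
      clear h1 h2 ih h4
      push_cast
      generalize (2 : ℤ) ^ m = t at *
      have : N % 3 = 1 ∨ N % 3 = 2 := by omega
      have : t % 3 = 1 ∨ t % 3 = 2 := by omega
      omega
    rw [pow_succ] at h2
    rw [pow_succ, pow_succ] at h1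
    obtain ⟨a, ha, h⟩ := ih k (by interval_cases d <;> omega) (by interval_cases d <;> omega)
    refine ⟨a ++ [⟨d, by omega⟩], by simp [ha], fun y => ?_⟩
    have : comp f (a ++ [⟨d, by omega⟩]) y = comp f a (2 / 3 * (y + d)) := by
      simp only [comp, List.foldr_append]
      clear ha h
      induction a with
      | nil => simp [f, Fin.ext_iff, show d ≠ 7 by omega]
      | cons i a ih => exact congrArg (f i) ih
    have hk' : (N : ℝ) = 3 * k + d * (2 * 2 ^ m) := by exact_mod_cast sub_eq_iff_eq_add.1 hk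
    rw [this, h, hk', div_pow, div_pow]
    field_simp
    ring

def Good (x : ℝ) : Prop :=
  ∃ j, ∀ m, ∃ a : List (Fin 8), a.length = m + j ∧ |x - comp f a 0| ≤ (1 / 3) ^ m

theorem Good.map {x : ℝ} (h : Good x) (i : Fin 8) : Good (f i x) := by
  obtain ⟨j, h⟩ := h
  refine ⟨j + 1, fun m => ?_⟩
  obtain ⟨a, ha, h⟩ := h m
  exact ⟨i :: a, by simp [ha, add_assoc], (f_dist i _ _).trans_le (by
    rw [← comp]; linarith [abs_nonneg (x - comp f a 0)])⟩

theorem good (j : ℕ) : ∀ x : ℝ, 8 / 3 * (2 / 3) ^ j ≤ x → x ≤ 12 - 8 * (2 / 3) ^ j → Good x := by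
  induction j with
  | zero =>
    refine fun x h1 h2 => ⟨1, fun m => ?_⟩
    have h3 : (0 : ℝ) < 3 ^ m := by positivity
    have h4 : (0 : ℤ) < 2 ^ m := by positivity
    obtain ⟨a, ha, h⟩ := exact m ⌊3 / 2 * x * 3 ^ m⌋
      (le_trans (by omega) (Int.le_floor.2 (show ((4 * 3 ^ m : ℤ) : ℝ) ≤ _ by push_cast; nlinarith)))
      (Int.floor_le_iff.2 (by push_cast; nlinarith))
    refine ⟨a, ha, ?_⟩
    have h5 : x - comp f a 0 = 2 / 3 * Int.fract (3 / 2 * x * 3 ^ m) * (1 / 3) ^ m := by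
      rw [h, Int.fract, one_div_pow]; field_simp; ring
    have := Int.fract_nonneg (3 / 2 * x * 3 ^ m)
    have := Int.fract_lt_one (3 / 2 * x * 3 ^ m)
    rw [h5, abs_of_nonneg (by positivity)]
    exact mul_le_of_le_one_left (by positivity) (by linarith)
  | succ j ih =>
    intro x h1 h2
    rw [pow_succ] at h1 h2
    have h3 : (2 / 3 : ℝ) ^ j ≤ 1 := pow_le_one₀ (by norm_num) (by norm_num)
    by_cases c : 6 ≤ 3 / 2 * x - 8 / 3 * (2 / 3) ^ j
    · convert (ih (3 / 2 * x - 6) (by linarith) (by linarith)).map 6 using 1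
      simp [f]; ring
    · have h4 := Nat.floor_le (a := 3 / 2 * x - 8 / 3 * (2 / 3) ^ j) (by linarith)
      have h5 := Nat.lt_floor_add_one (3 / 2 * x - 8 / 3 * (2 / 3) ^ j)
      set d := ⌊3 / 2 * x - 8 / 3 * (2 / 3 : ℝ) ^ j⌋₊
      have h6 : d < 6 := by exact_mod_cast h4.trans_lt (not_le.1 c)
      convert (ih (3 / 2 * x - d) (by linarith) (by linarith)).map ⟨d, by omega⟩ using 1
      simp [f, Fin.ext_iff, show d ≠ 7 by omega]; ring

theorem good_all (x : ℝ) (h : x ∈ Icc (0 : ℝ) 12) : Good x := by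
  have h0 : Good 0 := ⟨0, fun m => ⟨.replicate m 0, by simp, by
    have : comp f (.replicate m 0) 0 = 0 := by
      induction m with
      | zero => rfl
      | succ m ih => exact (congrArg (f 0) ih).trans (by simp [f])
    simp [this]⟩⟩
  rcases h.1.eq_or_lt with rfl | h1
  · exact h0
  rcases h.2.eq_or_lt with rfl | h2
  · simpa [f] using h0.map 7
  obtain ⟨j, hj⟩ := exists_pow_lt_of_lt_one (lt_min (half_pos (half_pos h1))
    (show 0 < (12 - x) / 8 by linarith)) (show (2 / 3 : ℝ) < 1 by norm_num)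
  rw [lt_min_iff] at hj
  exact good j x (by linarith [hj.1]) (by linarith [hj.2])

theorem W_eq : W f (Icc 0 12) 0 2 = Icc 0 12 := by
  ext x
  simp only [W, c_diam, mem_setOf_eq, Real.rpow_two]
  refine ⟨fun h => ?_, fun h => ?_⟩
  · rw [← isClosed_Icc.closure_eq, Metric.mem_closure_iff]
    intro ε hε
    obtain ⟨n, hn⟩ := exists_pow_lt_of_lt_one (show 0 < ε / 144 by positivity)
      (show (2 / 3 : ℝ) < 1 by norm_num)
    obtain ⟨a, ha, h⟩ := (h.diff (List.finite_length_le (Fin 8) n)).nonempty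
    refine ⟨_, c_mem a (by simp), ha.trans_lt ?_⟩
    have h1 : (2 / 3 : ℝ) ^ a.length ≤ (2 / 3) ^ n :=
      pow_le_pow_of_le_one (by norm_num) (by norm_num) (not_le.1 h).le
    have h2 : (2 / 3 : ℝ) ^ a.length ≤ 1 := pow_le_one₀ (by norm_num) (by norm_num)
    have h3 : (0 : ℝ) < (2 / 3 : ℝ) ^ a.length := by positivity
    nlinarith
  · obtain ⟨j, hj⟩ := good_all x h
    obtain ⟨n, hn⟩ := exists_pow_lt_of_lt_one (show (0 : ℝ) < ((2 / 3) ^ j) ^ 2 by positivity)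
      (show (3 / 4 : ℝ) < 1 by norm_num)
    refine .of_image List.length (infinite_of_forall_exists_gt fun m => ?_)
    obtain ⟨a, ha, h⟩ := hj (m + n + 1)
    refine ⟨_, ⟨a, h.trans ?_, rfl⟩, by omega⟩
    have h1 : (3 / 4 : ℝ) ^ (m + n + 1) ≤ (3 / 4) ^ n :=
      pow_le_pow_of_le_one (by norm_num) (by norm_num) (by omega)
    have h2 : (1 / 3 : ℝ) ^ (m + n + 1) = (3 / 4) ^ (m + n + 1) * ((2 / 3) ^ (m + n + 1)) ^ 2 := by
      rw [← pow_mul, mul_comm _ 2, pow_mul, ← mul_pow]; norm_num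
    rw [ha, pow_add _ _ j, h2]
    have h3 : (0 : ℝ) < ((2 / 3) ^ (m + n + 1)) ^ 2 := by positivity
    have h4 : (0 : ℝ) < ((2 / 3) ^ j) ^ 2 := by positivity
    nlinarith

end H11.IFS

open H11.IFS

theorem Pool.Agent.Results.MP_521650_an.Exists.result :
    ∃ (l : ℕ) (φ : Fin l → ℝ → ℝ) (X : Set ℝ) (z s : ℝ), 2 ≤ l ∧
      (∀ i, Function.Injective (φ i) ∧ ∃ K, ContractingWith K (φ i)) ∧
      X.Nonempty ∧ IsCompact X ∧ X = ⋃ i, φ i '' X ∧ X.Nontrivial ∧ z ∈ X ∧ 1 < s ∧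
      W φ X z s = X := by
  refine ⟨8, f, Icc 0 12, 0, 2, by norm_num, fun i => ⟨fun x y h => ?_, 2 / 3, by norm_num,
    .of_dist_le_mul fun x y => (f_dist i x y).trans_le (by simp [Real.dist_eq])⟩, ⟨0, by simp⟩,
    isCompact_Icc, subset_antisymm (fun x h => mem_iUnion.2 ?_) (iUnion_subset fun i => ?_),
    ⟨0, by simp, 12, by simp, by simp⟩, by simp, by norm_num, W_eq⟩
  · have := f_dist i x y
    simpa [h, sub_eq_zero] using this
  · by_cases c : x ≤ 8
    · exact ⟨0, 3 / 2 * x, ⟨by linarith [h.1], by linarith⟩, by simp [f]; ring⟩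
    · exact ⟨6, 3 / 2 * x - 6, ⟨by linarith, by linarith [h.2]⟩, by simp [f]; ring⟩
  · rintro _ ⟨x, hx, rfl⟩; exact f_mem i hx
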